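import Pool.Agent.Helper52.AT.Proj

/-!
# The dynamical Mordell-Lang conjecture for orbits converging to an unramified point

Let `Φ` be a self-map of a subset `X` of complex projective space (for instance a regular self-map of
a quasiprojective variety) and let the orbit `Φ^n(α)` converge geometrically, in the usual topology,
to a point `p` (or to a cycle), which need not lie in `X`. Assume that near `p` the map is given by
forms `F i` with `F(p) = c p`, that it is unramified at `p` on a hypersurface `E : G = 0` through `p`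
with `Φ^* E ≥ 2 E` (for instance `G = 0`, where `E` is the whole space), and that the products `μ, ν` of
multipliers of `p` with `|μ| = |ν|` satisfy `μ^M = ν^M`. Then the return set of every closed `V` is a
finite union of arithmetic progressions.

Structure of the proof (files in `Pool/Agent/Helper52/AT`). Let `O` be the local ring at `p` modulo
the functions vanishing on the tail of the orbit, `T = Φ^*`, `J` the ideal of the functions which are
superexponentially small along the orbit.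
* `Sys.dich`: `T` acts on `O / m^k` with eigenvalues products of multipliers, so `g(x_n)` satisfies a
  linear recurrence up to `O(ρ^(k n))`, and a function which is not in `J` has a leading term
  `c n^j μ^n`; in particular it has only finitely many zeros on the orbit.
* `krull_T`: `T` is bijective on `O / (t, m^k)`, hence every ideal `b` with `T b ⊆ b` satisfies
  `b ⊆ (T b) O + (t)`, by Krull's intersection theorem.
* `Sys.descent`: hence the elements of `J` are `O(|t|)` along the orbit; in particular `0` if `t = 0`.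
* `Sys.J_le_IA`, `Sys.main`: hence functions have expansions in powers of `t` with coefficients
  outside `J`, and (by Nakayama's lemma) a function which is `O(|t|^A)` for all `A` is `0`.
-/

set_option autoImplicit false

namespace Pool.Agent.Results.MP_295d38_ag.AttractingPoints

open Filter MvPolynomial Pool.Agent.Helper52.AT

/-- Zariski closed subsets of projective space -/
def ZClosed {N : ℕ} (V : Set (Projectivization ℂ (Fin (N + 1) → ℂ))) : Prop :=
  ∃ C : Set (MvPolynomial (Fin (N + 1)) ℂ), (∀ F ∈ C, ∃ d : ℕ, F.IsHomogeneous d) ∧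
    ∀ p : Projectivization ℂ (Fin (N + 1) → ℂ), p ∈ V ↔ ∀ F ∈ C, MvPolynomial.eval p.rep F = 0

/-- `z` is a multiplier at the fixed point `p` of the map with homogeneous coordinates `F i`,
`F(p) = c p`: an eigenvalue, for an eigenvector tangent to `X`, of its differential at `p` -/
def IsMultiplier {N : ℕ} (X : Set (Projectivization ℂ (Fin (N + 1) → ℂ)))
    (F : Fin (N + 1) → MvPolynomial (Fin (N + 1)) ℂ) (c : ℂ)
    (p : Projectivization ℂ (Fin (N + 1) → ℂ)) (z : ℂ) : Prop :=
  ∃ h, TangentAt X p h ∧ h ∉ p.submodule ∧ diff F p.rep h - (c * z) • h ∈ p.submodule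

/-- The conditions on the map along the sequence `x` (with limit `p`) of the points of an orbit. -/
def Attracted {N : ℕ} (X : Set (Projectivization ℂ (Fin (N + 1) → ℂ)))
    (x : ℕ → Projectivization ℂ (Fin (N + 1) → ℂ))
    (p : Projectivization ℂ (Fin (N + 1) → ℂ)) : Prop :=
  ∃ (d : ℕ) (F : Fin (N + 1) → MvPolynomial (Fin (N + 1)) ℂ) (c : ℂ),
    -- the forms `F i` fix `p` and map `x n` to `x (n + 1)`
    (∀ i, (F i).IsHomogeneous d) ∧ c ≠ 0 ∧ val F p.rep = c • p.rep ∧
    (∀ᶠ n in atTop, val F (x n).rep ∈ (x (n + 1)).submodule) ∧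
    -- a hypersurface `G = 0` through `p` whose inverse image contains it twice,
    (∃ (e a b : ℕ) (G U W : MvPolynomial (Fin (N + 1)) ℂ),
      G.IsHomogeneous e ∧ U.IsHomogeneous a ∧ W.IsHomogeneous b ∧ b + d * e = a + 2 * e ∧
      eval p.rep G = 0 ∧ eval p.rep W ≠ 0 ∧
      (∀ᶠ n in atTop, eval (x n).rep W * eval (val F (x n).rep) G =
        eval (x n).rep U * eval (x n).rep G ^ 2) ∧
      -- on which the map is unramified at `p`
      ∀ h, TangentAt X p h → ∑ a, h a * eval p.rep (pderiv a G) = 0 →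
        diff F p.rep h ∈ p.submodule → h ∈ p.submodule) ∧
    -- products of multipliers of the same absolute value have the same `M`-th power
    ∃ M : ℕ, 1 ≤ M ∧ ∀ μ ∈ Submonoid.closure {z | IsMultiplier X F c p z},
      ∀ ν ∈ Submonoid.closure {z | IsMultiplier X F c p z}, ‖μ‖ = ‖ν‖ → μ ^ M = ν ^ M

/-! ## Eventually periodic sets -/

/-- eventually periodic sets of natural numbers -/
def EvPer (S : Set ℕ) : Prop := ∃ P n₀ : ℕ, 1 ≤ P ∧ ∀ n ≥ n₀, n + P ∈ S ↔ n ∈ S

theorem EvPer.mul {S : Set ℕ} {P n₀ : ℕ} (h : ∀ n ≥ n₀, n + P ∈ S ↔ n ∈ S) (k : ℕ) :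
    ∀ n ≥ n₀, n + P * k ∈ S ↔ n ∈ S := by
  induction k with
  | zero => simp
  | succ k ih =>
    intro n hn
    have h1 := h (n + P * k) (by omega)
    rw [mul_add, mul_one, ← add_assoc, h1, ih n hn]

/-- a set is eventually periodic if its traces on the classes modulo `q` are -/
theorem evPer_classes {S : Set ℕ} {q : ℕ} (hq : 1 ≤ q) (h : ∀ r < q, EvPer {n | q * n + r ∈ S}) :
    EvPer S := by
  choose! P n₀ hP hper using h
  refine ⟨q * ∏ r ∈ Finset.range q, P r, q * (∑ r ∈ Finset.range q, n₀ r + 1), ?_, ?_⟩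
  · refine Nat.mul_pos hq (Finset.prod_pos fun r hr => hP r (Finset.mem_range.1 hr))
  · intro n hn
    obtain ⟨m, r, hr, rfl⟩ : ∃ m r, r < q ∧ n = q * m + r :=
      ⟨n / q, n % q, Nat.mod_lt _ hq, (Nat.div_add_mod n q).symm⟩
    have h1 : n₀ r ≤ ∑ r ∈ Finset.range q, n₀ r :=
      Finset.single_le_sum (f := n₀) (fun _ _ => Nat.zero_le _) (Finset.mem_range.2 hr)
    have h2 : n₀ r ≤ m := by
      by_contra hcon
      push Not at hcon
      have h3 : q * m + r < q * (m + 1) := by rw [mul_add]; omega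
      have h4 : q * (m + 1) ≤ q * (∑ r ∈ Finset.range q, n₀ r + 1) :=
        Nat.mul_le_mul_left _ (by omega)
      omega
    obtain ⟨k, hk⟩ : P r ∣ ∏ r ∈ Finset.range q, P r := Finset.dvd_prod_of_mem P (Finset.mem_range.2 hr)
    have h3 := EvPer.mul (hper r hr) k m h2
    have h4 : q * m + r + q * ∏ r ∈ Finset.range q, P r = q * (m + P r * k) + r := by
      rw [hk]; ring
    rw [h4]
    exact h3

/-- eventually periodic sets are finite unions of arithmetic progressions -/
theorem EvPer.aps {S : Set ℕ} (h : EvPer S) :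
    ∃ T : Finset (ℕ × ℕ), S = {n : ℕ | ∃ t ∈ T, ∃ k : ℕ, n = t.1 + t.2 * k} := by
  classical
  obtain ⟨P, n₀, hP, h⟩ := h
  refine ⟨((Finset.range n₀).filter (· ∈ S)).image (fun a => (a, 0)) ∪
    ((Finset.Ico n₀ (n₀ + P)).filter (· ∈ S)).image (fun a => (a, P)), ?_⟩
  ext n
  simp only [Set.mem_ofPred_eq, Finset.mem_union, Finset.mem_image, Finset.mem_filter,
    Finset.mem_range, Finset.mem_Ico]
  constructor
  · intro hn
    rcases lt_or_ge n n₀ with h1 | h1
    · exact ⟨(n, 0), Or.inl ⟨n, ⟨h1, hn⟩, rfl⟩, 0, by simp⟩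
    · set a := n₀ + (n - n₀) % P with ha
      have h2 : n = a + P * ((n - n₀) / P) := by
        have := Nat.mod_add_div (n - n₀) P
        omega
      have h3 : a ∈ S := by
        rw [h2] at hn
        exact (EvPer.mul h _ a (by omega)).1 hn
      have h4 : (n - n₀) % P < P := Nat.mod_lt _ hP
      exact ⟨(a, P), Or.inr ⟨a, ⟨⟨by omega, by omega⟩, h3⟩, rfl⟩, _, h2⟩
  · rintro ⟨t, (⟨a, ⟨_, ha⟩, rfl⟩ | ⟨a, ⟨⟨ha1, _⟩, ha⟩, rfl⟩), k, rfl⟩
    · simpa using ha
    · exact (EvPer.mul h k a ha1).2 ha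

/-- **Dynamical Mordell-Lang for orbits attracted by unramified points.** -/
theorem result :
  ∀ (N : ℕ) (X : Set (Projectivization ℂ (Fin (N + 1) → ℂ)))
    (Φ : Projectivization ℂ (Fin (N + 1) → ℂ) → Projectivization ℂ (Fin (N + 1) → ℂ)),
    (∀ x ∈ X, Φ x ∈ X) → ∀ α ∈ X, ∀ q : ℕ, 1 ≤ q →
    (∀ r < q, ∃ p, GeomTendsto (fun n => Φ^[q * n + r] α) p ∧
      Attracted X (fun n => Φ^[q * n + r] α) p) →
    ∀ V, ZClosed V →
      ∃ T : Finset (ℕ × ℕ),
        {n : ℕ | Φ^[n] α ∈ V} = {n : ℕ | ∃ t ∈ T, ∃ k : ℕ, n = t.1 + t.2 * k} := by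
  classical
  intro N X Φ hΦ α hα q hq hlim V ⟨B, hB, hV⟩
  have horb : ∀ i, Φ^[i] α ∈ X := by
    intro i
    induction i with
    | zero => exact hα
    | succ i ih =>
      rw [Function.iterate_succ_apply']
      exact hΦ _ ih
  -- finitely many forms suffice
  obtain ⟨B₀, hB₀, hB₀z⟩ : ∃ B₀ : Finset (MvPolynomial (Fin (N + 1)) ℂ), (∀ F ∈ B₀, F ∈ B) ∧
        ∀ v : Fin (N + 1) → ℂ, (∀ F ∈ B₀, eval v F = 0) → ∀ F ∈ B, eval v F = 0 := by
    obtain ⟨B₀, hB₀, hspan⟩ := (Submodule.fg_span_iff_fg_span_finset_subset B).mp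
      (IsNoetherian.noetherian (Submodule.span (MvPolynomial (Fin (N + 1)) ℂ) B))
    refine ⟨B₀, fun F hF => hB₀ hF, fun v hv F hF => ?_⟩
    have h1 : F ∈ Submodule.span (MvPolynomial (Fin (N + 1)) ℂ)
        (B₀ : Set (MvPolynomial (Fin (N + 1)) ℂ)) := by
      rw [← hspan]
      exact Submodule.subset_span hF
    refine Submodule.span_induction (p := fun F _ => eval v F = 0) ?_ ?_ ?_ ?_ h1
    · intro G hG
      exact hv G hG
    · simp
    · intro G H _ _ hG hH
      rw [map_add, hG, hH, add_zero]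
    · intro a G _ hG
      rw [smul_eq_mul, map_mul, hG, mul_zero]
  refine (evPer_classes hq fun r hr => ?_).aps
  obtain ⟨p, hgeo, d, F, c, hF, hc, hFp, hFx, ⟨e, a, b, G, U, W, hG, hU, hW, hdeg, hGp, hWp, hGx,
    hunr⟩, M, hM, hmult⟩ := hlim r hr
  refine evPer_classes hM fun s _ => ?_
  have key : ∀ E ∈ B₀, (∀ᶠ n in atTop, eval (Φ^[q * (M * n + s) + r] α).rep E = 0) ∨
      (∀ᶠ n in atTop, eval (Φ^[q * (M * n + s) + r] α).rep E ≠ 0) := by
    intro E hE
    obtain ⟨k, hk⟩ := hB E (hB₀ E hE)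
    exact proj_main X (fun n => Φ^[q * n + r] α) (Eventually.of_forall fun n => horb _) p hgeo hF hc
      hFp hFx hG hU hW hdeg hGp hWp hGx hunr hM hmult hk s
  have hiff : ∀ n, n ∈ {n | M * n + s ∈ {n | q * n + r ∈ {n : ℕ | Φ^[n] α ∈ V}}} ↔
      ∀ E ∈ B₀, eval (Φ^[q * (M * n + s) + r] α).rep E = 0 := by
    intro n
    simp only [Set.mem_ofPred_eq]
    rw [hV]
    exact ⟨fun h E hE => h E (hB₀ E hE), fun h => hB₀z _ h⟩
  by_cases hall : ∀ E ∈ B₀, ∀ᶠ n in atTop, eval (Φ^[q * (M * n + s) + r] α).rep E = 0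
  · have h1 : ∀ᶠ n in atTop, ∀ E ∈ B₀, eval (Φ^[q * (M * n + s) + r] α).rep E = 0 := by
      rw [Filter.eventually_all_finset]
      exact hall
    obtain ⟨n₀, hn₀⟩ := eventually_atTop.1 h1
    refine ⟨1, n₀, le_rfl, fun n hn => ?_⟩
    rw [hiff, hiff]
    exact ⟨fun _ => hn₀ n hn, fun _ => hn₀ (n + 1) (by omega)⟩
  · push Not at hall
    obtain ⟨E, hE, hne⟩ := hall
    have h1 : ∀ᶠ n in atTop, eval (Φ^[q * (M * n + s) + r] α).rep E ≠ 0 :=
      (key E hE).resolve_left (fun h => hne (h.mono fun n hn => not_not.2 hn))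
    obtain ⟨n₀, hn₀⟩ := eventually_atTop.1 h1
    refine ⟨1, n₀, le_rfl, fun n hn => ?_⟩
    rw [hiff, hiff]
    exact ⟨fun h => absurd (h E hE) (hn₀ (n + 1) (by omega)), fun h => absurd (h E hE) (hn₀ n hn)⟩

end Pool.Agent.Results.MP_295d38_ag.AttractingPoints
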