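import Mathlib
import Pool.Agent.Helper52.DV.ZMain

set_option autoImplicit false

namespace Pool.Agent.Results.MP_295d38_ag.IntegralMaps

open MvPolynomial

/-- The self-map of `𝔸ᴺ(ℂ) = ℂᴺ` given by `N` polynomials with integral coefficients. -/
noncomputable def polyMap {N : ℕ} (Φ : Fin N → MvPolynomial (Fin N) ℤ) (x : Fin N → ℂ) :
    Fin N → ℂ :=
  fun i => aeval x (Φ i)

/-- The return set `{n : Φⁿ(α) ∈ V}` for the closed subvariety `V` of `𝔸ᴺ` over `ℂ` cut out by the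
polynomials of the set `V`. -/
def returnSet {N : ℕ} (Φ : Fin N → MvPolynomial (Fin N) ℤ) (α : Fin N → ℂ)
    (V : Set (MvPolynomial (Fin N) ℂ)) : Set ℕ :=
  {n | ∀ F ∈ V, eval ((polyMap Φ)^[n] α) F = 0}

/-- The polynomial self-maps `(Φ₁, …, Φ_N)` of `𝔸ᴺ` over `ℤ` with `deg Φᵢ ≤ dᵢ` for all `i`, all of
whose coefficients have absolute value at most `B`. -/
def box {N : ℕ} (d : Fin N → ℕ) (B : ℕ) : Set (Fin N → MvPolynomial (Fin N) ℤ) :=
  {Φ | (∀ i, (Φ i).totalDegree ≤ d i) ∧ ∀ i s, |coeff s (Φ i)| ≤ (B : ℤ)}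

/-- The closed subvariety cut out by `V` is not the whole space. -/
def Proper {N : ℕ} (V : Set (MvPolynomial (Fin N) ℂ)) : Prop := ∃ F ∈ V, F ≠ 0

/-- **The dynamical Mordell-Lang conjecture for one hundred percent of the polynomial self-maps of
affine `N`-space over `ℤ` with one component of larger degree than the others**, in every dimension
`N = m + 1` and for all degrees `d₁, …, d_N` with `1 ≤ dᵢ < d_N` for `i < N`: the return set is
finite for all closed `V ≠ 𝔸ᴺ` over `ℂ` and all starting points `α` in any given finite subset `S` of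
`ℂᴺ`, the size of which may grow with the bound `B` for the coefficients. -/
theorem result (m : ℕ) (d : Fin (m + 1) → ℕ)
    (hd : ∀ i : Fin m, 1 ≤ d i.castSucc ∧ d i.castSucc < d (Fin.last m))
    (hd2 : 2 ≤ d (Fin.last m)) (ε : ℝ) (hε : 0 < ε) :
    ∃ κ : ℝ, 0 < κ ∧ ∃ K : ℕ, ∀ B : ℕ, K ≤ B → (box d B).Finite ∧
      ∀ (S : Finset (Fin (m + 1) → ℂ)) (A : ℝ), 1 ≤ A → (∀ α ∈ S, ∀ i, ‖α i‖ ≤ A) →
        (S.card : ℝ) ^ d (Fin.last m) * A ^ (d (Fin.last m) * (d (Fin.last m) - 1)) ≤ κ * B →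
          (1 - ε) * ((box d B).ncard : ℝ) ≤
            (({Φ ∈ box d B | ∀ α ∈ S, ∀ V : Set (MvPolynomial (Fin (m + 1)) ℂ), Proper V →
              (returnSet Φ α V).Finite}).ncard : ℝ) := by
  obtain ⟨κ, hκ, K, h⟩ := Pool.Agent.Helper52.DV.z_main (fun i => (hd i).1) (fun i => (hd i).2)
    hd2 ε hε
  refine ⟨κ, hκ, K, fun B hB => ?_⟩
  obtain ⟨hfin, h1⟩ := h B hB
  have hbox : box d B = Pool.Agent.Helper52.DV.zbox m d B := rfl
  rw [← hbox] at hfin h1
  refine ⟨hfin, fun S A hA hS hSA => ?_⟩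
  refine (h1 S A hA hS hSA).trans
    (Nat.cast_le.2 (Set.ncard_le_ncard ?_ (hfin.subset fun Φ hΦ => hΦ.1)))
  rintro Φ ⟨hΦ, hC⟩
  refine ⟨hΦ, fun α hα V hV => ?_⟩
  obtain ⟨F, hFV, hF0⟩ := hV
  have hmap : (Pool.Agent.Helper86.MQ.pm fun i =>
      MvPolynomial.map (Int.castRingHom ℂ) (Φ i)) = polyMap Φ := by
    funext x i
    simp only [polyMap, Pool.Agent.Helper86.MQ.pm]
    rw [eval_map, aeval_def]
    rfl
  have h2 := hC α hα F hF0
  rw [hmap] at h2
  exact h2.subset fun n hn => hn F hFV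

end Pool.Agent.Results.MP_295d38_ag.IntegralMaps
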