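import Mathlib
import Pool.Agent.Helper52.Vojta.SplitCount
import Pool.Agent.Helper52.Vojta.LowerTwoFinal
import Pool.Agent.Helper52.Vojta.GenExc
import Pool.Agent.Helper52.Vojta.GLower

/-!
Exceptions to Vojta's inequality for points of degree `r` over a number field `k`, on the projective
line and for an arbitrary reduced divisor `D` of degree `q` defined over `k`.

Up to a projective change of coordinates (which is not even needed below) such a divisor is
`D = {g = 0}` or `D = {g = 0} + ∞` with a squarefree polynomial `g` over `k`; the degree `q` of `D` is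
`deg g` in the first case and `deg g + 1` in the second. Points are given by their affine coordinate
`x`, an element of the algebraic closure of `k`; the field of definition is `k⟮x⟯`.
-/

namespace Pool.Agent.Results.MP_71c16a_nt.SparseExceptions

open NumberField Finset Polynomial IntermediateField Pool.Agent.Helper64.Vojta Pool.Agent.Helper52.Vojta

universe u

section

variable (k : Type u) [Field k] [NumberField k] {L : Type u} [Field L] [NumberField L] [Algebra k L]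

/-- Logarithmic height, relative to `k`, of the point of the projective line with affine
coordinate `y`; `Height.logHeight` is Mathlib's height relative to `L`. -/
noncomputable def hgt (y : L) : ℝ := Height.logHeight ![y, 1] / Module.finrank k L

/-- Logarithmic discriminant `d_k(L)`. -/
noncomputable def dk (k L : Type u) [Field k] [NumberField k] [Field L] [NumberField L]
    [Algebra k L] : ℝ :=
  Real.log |(discr L : ℝ)| / Module.finrank k L - Real.log |(discr k : ℝ)|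

variable {k}

/-- The Weil function, relative to `k`, at the place `ν` of `k` of the divisor `D = {g = 0}`
(if `q = deg g`) or `D = {g = 0} + ∞` (if `q = deg g + 1`) of the projective line. -/
noncomputable def lamD (g : k[X]) (q : ℕ) (ν : Pl k) (y : L) : ℝ :=
  (∑ w ∈ above L ν, (q * Real.log (sn w ![y, 1]) - Real.log (nv w (aeval y g)))) / Module.finrank k L

/-- Left side of Vojta's inequality: `h_K(y) + ∑_{ν ∈ S} λ_D(y,ν)`, with `K = - 2 · point`. -/
noncomputable def lhs (g : k[X]) (q : ℕ) (S : Finset (Pl k)) (y : L) : ℝ :=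
  -(2 * hgt k y) + ∑ ν ∈ S, lamD g q ν y

/-- The field generated by an algebraic number over a number field is a number field. -/
instance numberField_adjoin (x : AlgebraicClosure k) : NumberField k⟮x⟯ := by
  have : FiniteDimensional k k⟮x⟯ := adjoin.finiteDimensional (Algebra.IsIntegral.isIntegral x)
  have h0 : CharZero k⟮x⟯ := charZero_of_injective_algebraMap (algebraMap k k⟮x⟯).injective
  have h1 : FiniteDimensional ℚ k⟮x⟯ := Module.Finite.trans k k⟮x⟯
  exact { to_charZero := h0, to_finiteDimensional := h1 }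

/-- The points `x` outside `D`, of degree `r` over `k`, with `r h(x) ≤ V`, which violate Vojta's
inequality `h_K(x) + ∑_{ν ∈ S} λ_D(x,ν) ≤ ε h(x) + d_k(x) + c`. -/
def exceptional (g : k[X]) (q r : ℕ) (S : Finset (Pl k)) (ε c V : ℝ) : Set (AlgebraicClosure k) :=
  {x | Module.finrank k k⟮x⟯ = r ∧ r * hgt k (AdjoinSimple.gen k x) ≤ V ∧ aeval x g ≠ 0 ∧
    ε * hgt k (AdjoinSimple.gen k x) + dk k k⟮x⟯ + c < lhs g q S (AdjoinSimple.gen k x)}

/-- The points `x` outside `D`, of degree `r` over `k`, with `r h(x) ≤ V`, which violate the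
inequality `h_K(x) + ∑_{ν ∈ S} λ_D(x,ν) ≤ ε h(x) + c` without discriminant term. -/
def nontrivial (g : k[X]) (q r : ℕ) (S : Finset (Pl k)) (ε c V : ℝ) : Set (AlgebraicClosure k) :=
  {x | Module.finrank k k⟮x⟯ = r ∧ r * hgt k (AdjoinSimple.gen k x) ≤ V ∧ aeval x g ≠ 0 ∧
    ε * hgt k (AdjoinSimple.gen k x) + c < lhs g q S (AdjoinSimple.gen k x)}

/-- Condition under which the lower bound is proved: `r ≥ 4`; or `r = 3` and the divisor
`D = {g = 0}` or `{g = 0} + ∞` has a real point over every real place of `k`; or `r = 2`, `S` has at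
least two elements and `D` contains `0`, `1` and `∞`. -/
def Rich (g : k[X]) (q r : ℕ) (S : Finset (Pl k)) : Prop :=
  4 ≤ r ∨ (r = 3 ∧ ∀ σ : k →+* ℝ, g.natDegree < q ∨ ∃ β : ℝ, g.eval₂ σ β = 0) ∨
    (r = 2 ∧ 2 ≤ S.card ∧ X * (X - 1) ∣ g ∧ g.natDegree < q)

end

section

variable {k : Type u} [Field k] [NumberField k]

omit [NumberField k] in
theorem aeval_gen_eq_zero {g : k[X]} {x : AlgebraicClosure k} :
    aeval (AdjoinSimple.gen k x) g = 0 ↔ aeval x g = 0 := by
  have h : aeval x g = algebraMap k⟮x⟯ (AlgebraicClosure k) (aeval (AdjoinSimple.gen k x) g) := by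
    rw [← aeval_algebraMap_apply]
    rfl
  rw [h, map_eq_zero_iff (algebraMap k⟮x⟯ (AlgebraicClosure k)) (algebraMap k⟮x⟯ (AlgebraicClosure k)).injective]

theorem exceptional_eq (g : k[X]) (q r : ℕ) (hr : 0 < r) (S : Finset (Pl k)) (ε c V : ℝ) :
    exceptional g q r S ε c V = excSet (AlgebraicClosure k) g q r S ε (-c) V := by
  have hr0 : (r : ℝ) ≠ 0 := by exact_mod_cast hr.ne'
  ext x
  constructor
  · rintro ⟨h1, h2, h3, h4⟩
    refine ⟨inferInstance, ⟨h1, ?_, ?_⟩, ?_⟩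
    · rw [Ne, aeval_gen_eq_zero]; exact h3
    · have h5 := h4
      unfold dk lhs hgt lamD at h5
      unfold dloc aff
      linarith
    · unfold hgt at h2
      rw [h1, mul_div_cancel₀ _ hr0] at h2
      exact h2
  · rintro ⟨_, ⟨h1, h3, h4⟩, h2⟩
    refine ⟨h1, ?_, ?_, ?_⟩
    · unfold hgt
      rw [h1, mul_div_cancel₀ _ hr0]
      exact h2
    · rw [Ne, aeval_gen_eq_zero] at h3; exact h3
    · unfold dk lhs hgt lamD
      unfold dloc aff at h4
      linarith

end

/-- The exponent in the bound for divisors which are sums of rational points. -/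
noncomputable def expo (r N : ℕ) (ε : ℝ) : ℝ :=
  ((r : ℝ) + 1) * (r + 2) * (N - 2 - ε) / (N * (r + 2) + 4 * (r + 1))

theorem absorb {E E' : ℝ} (h : E < E') (m : ℕ) : ∃ B : ℝ, 0 ≤ B ∧ ∀ V : ℝ, 0 ≤ V →
    (1 + V) ^ m * Real.exp (E * V) ≤ B * Real.exp (E' * V) := by
  set a := E' - E with ha
  have ha0 : 0 < a := by rw [ha]; linarith
  refine ⟨(m.factorial : ℝ) * (1 / a) ^ m * Real.exp a, by positivity, fun V hV => ?_⟩
  have h1 : (a * (1 + V)) ^ m / (m.factorial : ℝ) ≤ Real.exp (a * (1 + V)) :=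
    Real.pow_div_factorial_le_exp _ (by positivity) m
  have h2 : (1 + V) ^ m ≤ (m.factorial : ℝ) * (1 / a) ^ m * Real.exp (a * (1 + V)) := by
    rw [div_le_iff₀ (by positivity)] at h1
    calc (1 + V) ^ m = (1 / a) ^ m * (a * (1 + V)) ^ m := by
          rw [← mul_pow]; congr 1; field_simp
      _ ≤ (1 / a) ^ m * (Real.exp (a * (1 + V)) * m.factorial) := mul_le_mul_of_nonneg_left h1 (by positivity)
      _ = _ := by ring
  calc (1 + V) ^ m * Real.exp (E * V)
      ≤ ((m.factorial : ℝ) * (1 / a) ^ m * Real.exp (a * (1 + V))) * Real.exp (E * V) :=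
        mul_le_mul_of_nonneg_right h2 (Real.exp_pos _).le
    _ = (m.factorial : ℝ) * (1 / a) ^ m * (Real.exp (a * (1 + V)) * Real.exp (E * V)) := by ring
    _ = (m.factorial : ℝ) * (1 / a) ^ m * Real.exp a * Real.exp (E' * V) := by
        rw [← Real.exp_add, mul_assoc _ (Real.exp a), ← Real.exp_add]
        congr 2
        rw [ha]; ring

/-- Points of degree `r` over `k` on the projective line, `D` any reduced divisor over `k` of degree
`q`, and the number of exceptions to Vojta's inequality with `r h(x) ≤ V`. The first three parts are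
upper bounds, uniform in `S`. First part: `C exp((q - 2 - ε)(r + 2)/4 · V)`. Second part: if all points of
`D` are rational, `C (1 + V)^m exp(E V)` with `E = expo r N ε`, for all `N ≥ r + 1` with `N ≥ q` or
`N ≥ r s`. Third part: `C (1 + V)^m exp(E V)` for all `κ > 0` and `E ≥ (r + 2) κ / 4`,
`E ≥ r - 1 - (ε + κ) / 2` and, for `r ≥ 3`, `E ≥ r - 1 - (2 + ε + κ) / q`. Fourth part: if `q ≥ 3` and
`Rich g q r S` (for example `r ≥ 4`), the points of degree `r` for which the inequality is not already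
true without discriminant term number at least `c₁ exp((r - 1 - ε) V)`. Fifth part: for all these `D`,
`S`, `r` and all small `ε` the exceptions are a power-saving proportion of those points. -/
theorem result (k : Type u) [Field k] [NumberField k] :
    (∀ g : k[X], Squarefree g → ∀ q : ℕ, g.natDegree ≤ q → q ≤ g.natDegree + 1 →
      ∀ r : ℕ, 2 ≤ r → ∀ (s : ℕ) (ε c : ℝ), 0 < ε → ε < q - 2 →
      ∃ C : ℝ, ∀ S : Finset (Pl k), S.card ≤ s → ∀ V : ℝ, 0 ≤ V →
        (exceptional g q r S ε c V).Finite ∧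
        ((exceptional g q r S ε c V).ncard : ℝ) ≤ C * Real.exp ((q - 2 - ε) * (r + 2) / 4 * V)) ∧
    (∀ g : k[X], Squarefree g → g.Splits → ∀ q : ℕ, g.natDegree ≤ q → q ≤ g.natDegree + 1 →
      ∀ r : ℕ, 2 ≤ r → ∀ s N : ℕ, r + 1 ≤ N → (q ≤ N ∨ r * s ≤ N) →
      ∀ ε c : ℝ, 0 < ε → ε < N - 2 → ε < q - 2 →
      ∃ (C : ℝ) (m : ℕ), ∀ S : Finset (Pl k), S.card ≤ s → ∀ V : ℝ, 0 ≤ V →
        (exceptional g q r S ε c V).Finite ∧
        ((exceptional g q r S ε c V).ncard : ℝ) ≤ C * (1 + V) ^ m * Real.exp (expo r N ε * V)) ∧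
    (∀ g : k[X], Squarefree g → ∀ q : ℕ, g.natDegree ≤ q → q ≤ g.natDegree + 1 →
      ∀ r : ℕ, 2 ≤ r → ∀ (s : ℕ) (ε c : ℝ), 0 < ε → ε < 1 → ε < q - 2 →
      ∀ κ E : ℝ, 0 < κ → (r + 2) * κ / 4 ≤ E → r - 1 - (ε + κ) / 2 ≤ E →
      (3 ≤ r → r - 1 - (2 + ε + κ) / q ≤ E) →
      ∃ (C : ℝ) (m : ℕ), ∀ S : Finset (Pl k), S.card ≤ s → ∀ V : ℝ, 0 ≤ V →
        (exceptional g q r S ε c V).Finite ∧
        ((exceptional g q r S ε c V).ncard : ℝ) ≤ C * (1 + V) ^ m * Real.exp (E * V)) ∧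
    (∀ g : k[X], Squarefree g → ∀ q : ℕ, g.natDegree ≤ q → q ≤ g.natDegree + 1 → 3 ≤ q →
      ∀ S : Finset (Pl k), (∀ v : InfinitePlace k, Sum.inl v ∈ S) →
      ∀ r : ℕ, Rich g q r S → ∀ ε c : ℝ, 0 < ε → ε < 1 →
      ∃ c₁ V₀ : ℝ, 0 < c₁ ∧ ∀ V : ℝ, V₀ ≤ V → ∃ P : Finset (AlgebraicClosure k),
        (P : Set (AlgebraicClosure k)) ⊆ nontrivial g q r S ε c V ∧
        c₁ * Real.exp ((r - 1 - ε) * V) ≤ P.card) ∧
    (∀ g : k[X], Squarefree g → ∀ q : ℕ, g.natDegree ≤ q → q ≤ g.natDegree + 1 → 3 ≤ q →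
      ∀ S : Finset (Pl k), (∀ v : InfinitePlace k, Sum.inl v ∈ S) →
      ∀ r : ℕ, Rich g q r S → ∀ ε c : ℝ, 0 < ε → ε < 1 →
      (r + 6) * ε < 4 * (r - 1) → (3 ≤ r → (q * (r + 2) - (r - 2)) * ε < 6 * r) →
      ∃ δ : ℝ, 0 < δ ∧ ∃ C V₀ : ℝ, ∀ V : ℝ, V₀ ≤ V → ∃ P : Finset (AlgebraicClosure k),
        (P : Set (AlgebraicClosure k)) ⊆ nontrivial g q r S ε c V ∧ P.Nonempty ∧
        ((exceptional g q r S ε c V).ncard : ℝ) ≤ C * Real.exp (-(δ * V)) * P.card) := by
  have part1 : ∀ g : k[X], Squarefree g → ∀ q : ℕ, g.natDegree ≤ q → q ≤ g.natDegree + 1 →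
      ∀ r : ℕ, 2 ≤ r → ∀ (s : ℕ) (ε c : ℝ), 0 < ε → ε < q - 2 →
      ∃ C : ℝ, 0 ≤ C ∧ ∀ S : Finset (Pl k), S.card ≤ s → ∀ V : ℝ, 0 ≤ V →
        (exceptional g q r S ε c V).Finite ∧
        ((exceptional g q r S ε c V).ncard : ℝ) ≤ C * Real.exp ((q - 2 - ε) * (r + 2) / 4 * V) := by
    intro g hg q hq1 hq2 r hr s ε c hε hεq
    obtain ⟨C, hC0, hC⟩ := excSet_count (Ω := AlgebraicClosure k) g hg hq1 hq2 hr s hε hεq (-c)
    refine ⟨C, hC0, fun S hS V hV => ?_⟩
    rw [exceptional_eq g q r (by omega) S ε c V]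
    refine ⟨(hC S hS V hV).1, (hC S hS V hV).2.trans (le_of_eq ?_)⟩
    unfold kap
    rw [if_neg (by omega)]
    congr 2
    ring
  have part1s : ∀ g : k[X], Squarefree g → g.Splits → ∀ q : ℕ, g.natDegree ≤ q → q ≤ g.natDegree + 1 →
      ∀ r : ℕ, 2 ≤ r → ∀ s N : ℕ, r + 1 ≤ N → (q ≤ N ∨ r * s ≤ N) →
      ∀ ε c : ℝ, 0 < ε → ε < N - 2 → ε < q - 2 →
      ∃ (C : ℝ) (m : ℕ), 0 ≤ C ∧ ∀ S : Finset (Pl k), S.card ≤ s → ∀ V : ℝ, 0 ≤ V →
        (exceptional g q r S ε c V).Finite ∧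
        ((exceptional g q r S ε c V).ncard : ℝ) ≤ C * (1 + V) ^ m * Real.exp (expo r N ε * V) := by
    intro g hg hsp q hq1 hq2 r hr s N hN hqN ε c hε hεN hεq
    obtain ⟨C, m, hC0, hC⟩ := exc_split_count (Ω := AlgebraicClosure k) g hg hsp hq1 hq2 hr s N hN hqN
      hε hεN hεq (-c)
    refine ⟨C, m, hC0, fun S hS V hV => ?_⟩
    rw [exceptional_eq g q r (by omega) S ε c V]
    exact hC S hS V hV
  have part1g : ∀ g : k[X], Squarefree g → ∀ q : ℕ, g.natDegree ≤ q → q ≤ g.natDegree + 1 →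
      ∀ r : ℕ, 2 ≤ r → ∀ (s : ℕ) (ε c : ℝ), 0 < ε → ε < 1 → ε < q - 2 →
      ∀ κ E : ℝ, 0 < κ → (r + 2) * κ / 4 ≤ E → r - 1 - (ε + κ) / 2 ≤ E →
      (3 ≤ r → r - 1 - (2 + ε + κ) / q ≤ E) →
      ∃ (C : ℝ) (m : ℕ), 0 ≤ C ∧ ∀ S : Finset (Pl k), S.card ≤ s → ∀ V : ℝ, 0 ≤ V →
        (exceptional g q r S ε c V).Finite ∧
        ((exceptional g q r S ε c V).ncard : ℝ) ≤ C * (1 + V) ^ m * Real.exp (E * V) := by
    intro g hg q hq1 hq2 r hr s ε c hε hε1 hεq κ E hκ hE2 hE1 hE3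
    obtain ⟨C, m, hC0, hC⟩ := exc_gen_count (Ω := AlgebraicClosure k) g hg hq1 hq2 hr s hε hε1 hεq (-c)
      hκ hE1 hE2 hE3
    refine ⟨C, m, hC0, fun S hS V hV => ?_⟩
    rw [exceptional_eq g q r (by omega) S ε c V]
    exact hC S hS V hV
  have aux : ∀ (g : k[X]) (q : ℕ) (S : Finset (Pl k)) (r : ℕ) (hr : 2 ≤ r) (ε c : ℝ) (x : AlgebraicClosure k)
      (V : ℝ), (∃ _ : NumberField k⟮x⟯, Ntv g q r S ε (-c) k⟮x⟯ (AdjoinSimple.gen k x) ∧
        Height.logHeight (aff (AdjoinSimple.gen k x)) ≤ V) → x ∈ nontrivial g q r S ε c V := by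
    rintro g q S r hr ε c x V ⟨_, ⟨h1, h3, h4⟩, h2⟩
    have hr0 : (r : ℝ) ≠ 0 := by
      have : r ≠ 0 := by omega
      exact_mod_cast this
    refine ⟨h1, ?_, ?_, ?_⟩
    · unfold hgt
      rw [h1, mul_div_cancel₀ _ hr0]
      exact h2
    · rw [Ne, aeval_gen_eq_zero] at h3; exact h3
    · unfold lhs hgt lamD
      unfold dloc aff at h4
      linarith
  have hrich2 : ∀ (g : k[X]) (q r : ℕ) (S : Finset (Pl k)), Rich g q r S → 2 ≤ r := by
    rintro g q r S (h | ⟨h, _⟩ | ⟨h, _⟩) <;> omega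
  have part2 : ∀ g : k[X], Squarefree g → ∀ q : ℕ, g.natDegree ≤ q → q ≤ g.natDegree + 1 → 3 ≤ q →
      ∀ S : Finset (Pl k), (∀ v : InfinitePlace k, Sum.inl v ∈ S) →
      ∀ r : ℕ, Rich g q r S → ∀ ε c : ℝ, 0 < ε → ε < 1 →
      ∃ c₁ V₀ : ℝ, 0 < c₁ ∧ ∀ V : ℝ, V₀ ≤ V → ∃ P : Finset (AlgebraicClosure k),
        (P : Set (AlgebraicClosure k)) ⊆ nontrivial g q r S ε c V ∧
        c₁ * Real.exp ((r - 1 - ε) * V) ≤ P.card := by
    intro g hg q hq1 hq2 hq S hS r hrich ε c hε0 hε1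
    have hr2 := hrich2 g q r S hrich
    have general : (4 ≤ r ∨ (r = 3 ∧ ∀ σ : k →+* ℂ, ComplexEmbedding.conjugate σ = σ →
        ∃ p ∈ dset g q σ, p.map (starRingEnd ℂ) = p)) →
        ∃ c₁ V₀ : ℝ, 0 < c₁ ∧ ∀ V : ℝ, V₀ ≤ V → ∃ P : Finset (AlgebraicClosure k),
        (P : Set (AlgebraicClosure k)) ⊆ nontrivial g q r S ε c V ∧
        c₁ * Real.exp ((r - 1 - ε) * V) ≤ P.card := by
      intro hr
      obtain ⟨c₁, V₀, hc₁, h⟩ := nontriv_lower_gen (AlgebraicClosure k) g hg hq1 hq2 hq S hS hr hε0 hε1 (-c)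
      refine ⟨c₁, V₀, hc₁, fun V hV => ?_⟩
      obtain ⟨P, hP1, hP2⟩ := h V hV
      exact ⟨P, fun x hx => aux g q S r hr2 ε c x V (hP2 x hx), hP1⟩
    rcases hrich with h | ⟨h, h'⟩ | ⟨rfl, hS2, hdvd, hdeg⟩
    · exact general (Or.inl h)
    · refine general (Or.inr ⟨h, fun σ hσ => ?_⟩)
      have hσr : ComplexEmbedding.IsReal σ := hσ
      rcases h' hσr.embedding with h1 | ⟨β, hβ⟩
      · refine ⟨none, ?_, rfl⟩
        unfold dset
        rw [Finset.mem_union, if_pos h1]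
        exact Or.inr (Finset.mem_singleton_self _)
      · refine ⟨some (β : ℂ), ?_, ?_⟩
        · unfold dset
          rw [Finset.mem_union]
          left
          refine Finset.mem_image.mpr ⟨(β : ℂ), ?_, rfl⟩
          rw [Multiset.mem_toFinset, mem_roots (Polynomial.map_ne_zero hg.ne_zero), IsRoot.def, eval_map]
          have e1 : σ = Complex.ofRealHom.comp hσr.embedding := by
            ext z
            exact (ComplexEmbedding.IsReal.coe_embedding_apply hσr z).symm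
          have e2 : eval₂ (Complex.ofRealHom.comp hσr.embedding) (Complex.ofRealHom β) g
              = Complex.ofRealHom (eval₂ hσr.embedding β g) := (hom_eval₂ g _ _ β).symm
          rw [hβ, map_zero] at e2
          rw [e1]
          exact e2
        · change some (starRingEnd ℂ (β : ℂ)) = some (β : ℂ)
          rw [Complex.conj_ofReal]
    · obtain ⟨g1, rfl⟩ := hdvd
      have hg10 : g1 ≠ 0 := by
        rintro rfl
        rw [mul_zero] at hg
        exact not_squarefree_zero hg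
      have hd : (X * (X - 1) * g1 : k[X]).natDegree = g1.natDegree + 2 := by
        have e : (X - 1 : k[X]) = X - C 1 := by simp
        rw [e]
        have h1 : (X * (X - C 1) : k[X]).Monic := monic_X.mul (monic_X_sub_C (1 : k))
        rw [Monic.natDegree_mul' h1 hg10, Monic.natDegree_mul monic_X (monic_X_sub_C (1 : k)),
          natDegree_X, natDegree_X_sub_C]
        ring
      obtain rfl : q = g1.natDegree + 3 := by omega
      obtain ⟨c₁, V₀, hc₁, h⟩ := nontriv_lower_two (AlgebraicClosure k) g1 hg10 S hS hS2 hε0 hε1 (-c)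
      refine ⟨c₁, V₀, hc₁, fun V hV => ?_⟩
      obtain ⟨P, hP1, hP2⟩ := h V hV
      refine ⟨P, fun x hx => aux _ _ S _ hr2 ε c x V (hP2 x hx), ?_⟩
      refine le_trans (le_of_eq ?_) hP1
      congr 2
      push_cast
      ring
  -- comparison of the two counts
  have compare : ∀ (g : k[X]) (q : ℕ) (S : Finset (Pl k)) (r : ℕ) (ε c C E δ : ℝ), 0 ≤ C →
      (∀ V : ℝ, 0 ≤ V → ((exceptional g q r S ε c V).ncard : ℝ) ≤ C * Real.exp (E * V)) → E + δ = r - 1 - ε →
      (∃ c₁ V₀ : ℝ, 0 < c₁ ∧ ∀ V : ℝ, V₀ ≤ V → ∃ P : Finset (AlgebraicClosure k),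
        (P : Set (AlgebraicClosure k)) ⊆ nontrivial g q r S ε c V ∧
        c₁ * Real.exp ((r - 1 - ε) * V) ≤ P.card) →
      ∃ C V₀ : ℝ, ∀ V : ℝ, V₀ ≤ V → ∃ P : Finset (AlgebraicClosure k),
        (P : Set (AlgebraicClosure k)) ⊆ nontrivial g q r S ε c V ∧ P.Nonempty ∧
        ((exceptional g q r S ε c V).ncard : ℝ) ≤ C * Real.exp (-(δ * V)) * P.card := by
    intro g q S r ε c C E δ hC0 hC hEδ hlow
    obtain ⟨c₁, V₀, hc₁, h⟩ := hlow
    refine ⟨C / c₁, max V₀ 0, fun V hV => ?_⟩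
    obtain ⟨P, hP1, hP2⟩ := h V ((le_max_left _ _).trans hV)
    have hE := Real.exp_pos ((r - 1 - ε) * V)
    refine ⟨P, hP1, ?_, ?_⟩
    · rw [Finset.nonempty_iff_ne_empty]
      rintro rfl
      rw [Finset.card_empty, Nat.cast_zero] at hP2
      have := mul_pos hc₁ hE
      linarith
    · refine (hC V ((le_max_right _ _).trans hV)).trans ?_
      have h1 : C / c₁ * Real.exp (-(δ * V)) * (c₁ * Real.exp ((r - 1 - ε) * V)) = C * Real.exp (E * V) := by
        have h2 : Real.exp (E * V) = Real.exp (-(δ * V)) * Real.exp ((r - 1 - ε) * V) := by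
          rw [← Real.exp_add, ← hEδ]
          congr 1
          ring
        rw [h2]
        field_simp
      rw [← h1]
      exact mul_le_mul_of_nonneg_left hP2 (by positivity)
  refine ⟨?_, ?_, ?_, part2, ?_⟩
  · intro g hg q hq1 hq2 r hr s ε c hε hεq
    obtain ⟨C, _, hC⟩ := part1 g hg q hq1 hq2 r hr s ε c hε hεq
    exact ⟨C, hC⟩
  · intro g hg hsp q hq1 hq2 r hr s N hN hqN ε c hε hεN hεq
    obtain ⟨C, m, _, hC⟩ := part1s g hg hsp q hq1 hq2 r hr s N hN hqN ε c hε hεN hεq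
    exact ⟨C, m, hC⟩
  · intro g hg q hq1 hq2 r hr s ε c hε hε1 hεq κ E hκ hE2 hE1 hE3
    obtain ⟨C, m, _, hC⟩ := part1g g hg q hq1 hq2 r hr s ε c hε hε1 hεq κ E hκ hE2 hE1 hE3
    exact ⟨C, m, hC⟩
  · intro g hg q hq1 hq2 hq S hS r hrich ε c hε0 hε1 h1 h3
    have hr := hrich2 g q r S hrich
    have hr2 : (2 : ℝ) ≤ r := by exact_mod_cast hr
    have hq3r : (3 : ℝ) ≤ q := by exact_mod_cast hq
    have hq3 : (0 : ℝ) < (q : ℝ) := by linarith
    -- choice of `κ` slightly below `4 (r - 1 - ε) / (r + 2)`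
    set κ₀ : ℝ := 4 * (r - 1 - ε) / (r + 2) with hκ₀
    have hκ₀r : (r + 2) * κ₀ = 4 * (r - 1 - ε) := by
      rw [hκ₀]; field_simp
    have hκ₀ε : ε < κ₀ := by
      rw [hκ₀, lt_div_iff₀ (by positivity)]
      nlinarith
    obtain ⟨κ, hκε, hκκ, hκ3⟩ : ∃ κ : ℝ, ε < κ ∧ κ < κ₀ ∧ (3 ≤ r → (q : ℝ) * ε < 2 + ε + κ) := by
      by_cases hr3 : 3 ≤ r
      · have h4 : (q : ℝ) * ε < 2 + ε + κ₀ := by
          have h5 := h3 hr3
          have h6 : (r + 2) * ((q : ℝ) * ε) < (r + 2) * (2 + ε + κ₀) := by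
            rw [mul_add (r + 2 : ℝ) (2 + ε) κ₀, hκ₀r]
            nlinarith
          exact lt_of_mul_lt_mul_left h6 (by positivity)
        refine ⟨(max ε ((q : ℝ) * ε - 2 - ε) + κ₀) / 2, ?_, ?_, fun _ => ?_⟩
        · have := le_max_left ε ((q : ℝ) * ε - 2 - ε)
          linarith
        · have : max ε ((q : ℝ) * ε - 2 - ε) < κ₀ := max_lt hκ₀ε (by linarith)
          linarith
        · have := le_max_right ε ((q : ℝ) * ε - 2 - ε)
          linarith
      · exact ⟨(ε + κ₀) / 2, by linarith, by linarith, fun h => absurd h hr3⟩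
    -- the exponent
    obtain ⟨E, hEr, hE2, hE1, hE3⟩ : ∃ E : ℝ, E < r - 1 - ε ∧ (r + 2) * κ / 4 ≤ E ∧
        r - 1 - (ε + κ) / 2 ≤ E ∧ (3 ≤ r → r - 1 - (2 + ε + κ) / (q : ℝ) ≤ E) := by
      have a1 : (r + 2) * κ / 4 < r - 1 - ε := by
        have : (r + 2) * κ < (r + 2) * κ₀ := mul_lt_mul_of_pos_left hκκ (by positivity)
        linarith
      have a2 : r - 1 - (ε + κ) / 2 < r - 1 - ε := by linarith
      by_cases hr3 : 3 ≤ r
      · have a3 : r - 1 - (2 + ε + κ) / (q : ℝ) < r - 1 - ε := by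
          have : ε < (2 + ε + κ) / (q : ℝ) := by
            rw [lt_div_iff₀ hq3]
            have := hκ3 hr3
            linarith
          linarith
        exact ⟨max ((r + 2) * κ / 4) (max (r - 1 - (ε + κ) / 2)
          (r - 1 - (2 + ε + κ) / (q : ℝ))), max_lt a1 (max_lt a2 a3),
          le_max_left _ _, (le_max_left _ _).trans (le_max_right _ _),
          fun _ => (le_max_right _ _).trans (le_max_right _ _)⟩
      · exact ⟨max ((r + 2) * κ / 4) (r - 1 - (ε + κ) / 2), max_lt a1 a2, le_max_left _ _,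
          le_max_right _ _, fun h => absurd h hr3⟩
    obtain ⟨C, m, hC0, hC⟩ := part1g g hg q hq1 hq2 r hr S.card ε c hε0 hε1 (by linarith) κ E (by linarith)
      hE2 hE1 hE3
    obtain ⟨E', hE'1, hE'2⟩ := exists_between hEr
    obtain ⟨B, hB0, hB⟩ := absorb hE'1 m
    refine ⟨r - 1 - ε - E', by linarith, compare g q S r ε c (C * B) E' (r - 1 - ε - E') (by positivity)
      (fun V hV => ?_) (by ring) (part2 g hg q hq1 hq2 hq S hS r hrich ε c hε0 hε1)⟩
    refine ((hC S le_rfl V hV).2).trans ?_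
    rw [mul_assoc, mul_assoc]
    exact mul_le_mul_of_nonneg_left (hB V hV) hC0

end Pool.Agent.Results.MP_71c16a_nt.SparseExceptions
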