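import Mathlib
import Pool.Agent.Helper52.SB.SFinal

set_option autoImplicit false

namespace Pool.Agent.Results.MP_295d38_ag.OptimalBound

open MvPolynomial

/-- The self-map of `𝔸ᴺ(ℂ) = ℂᴺ` given by `N` polynomials with integral coefficients. -/
noncomputable def polyMap {N : ℕ} (Φ : Fin N → MvPolynomial (Fin N) ℤ) (x : Fin N → ℂ) :
    Fin N → ℂ :=
  fun i => aeval x (Φ i)

/-- The return set `{n : Φⁿ(α) ∈ V}` for the closed subvariety `V` of `𝔸ᴺ` over `ℂ` cut out by the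
polynomials of the set `V`. -/
def returnSet {N : ℕ} (Φ : Fin N → MvPolynomial (Fin N) ℤ) (α : Fin N → ℂ)
    (V : Set (MvPolynomial (Fin N) ℂ)) : Set ℕ :=
  {n | ∀ F ∈ V, eval ((polyMap Φ)^[n] α) F = 0}

/-- The polynomial self-maps `(Φ₁, …, Φ_N)` of `𝔸ᴺ` over `ℤ` with `deg Φᵢ ≤ dᵢ` for all `i`, all of
whose coefficients have absolute value at most `B`. -/
def box {N : ℕ} (d : Fin N → ℕ) (B : ℕ) : Set (Fin N → MvPolynomial (Fin N) ℤ) :=
  {Φ | (∀ i, (Φ i).totalDegree ≤ d i) ∧ ∀ i s, |coeff s (Φ i)| ≤ (B : ℤ)}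

/-- The closed subvariety cut out by `V` is not the whole space. -/
def Proper {N : ℕ} (V : Set (MvPolynomial (Fin N) ℂ)) : Prop := ∃ F ∈ V, F ≠ 0

/-- The closed subvariety cut out by `V` lies in a hypersurface of degree at most `D`. -/
def InHypersurface {N : ℕ} (D : ℕ) (V : Set (MvPolynomial (Fin N) ℂ)) : Prop :=
  ∃ G : MvPolynomial (Fin N) ℂ, G ≠ 0 ∧ G.totalDegree ≤ D ∧
    ∀ x : Fin N → ℂ, (∀ F ∈ V, eval x F = 0) → eval x G = 0

/-- **The dynamical Mordell-Lang conjecture with the optimal bound for one hundred percent of the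
polynomial self-maps of affine `N`-space over `ℤ` with one component of larger degree than the
others**, in every dimension `N = m + 1` and for all degrees `d₁, …, d_N` with `1 ≤ dᵢ < d_N` for
`i < N`.  For all `D` and `ε > 0` there are `κ > 0` and `K` such that for `B ≥ K`, all `A ≥ 1` and all
finite sets `S` of points of `ℂᴺ` with coordinates of absolute value at most `A` and
`(#S) ^ d_N * A ^ (d_N (d_N + 1)) ≤ κ B`, a proportion of at least `1 - ε` of the maps `Φ` in `box d B`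
satisfies: for all `α ∈ S` and all closed subvarieties `V ≠ 𝔸ᴺ` of `𝔸ᴺ` over `ℂ` the return set is
finite, and it has at most `binom(N + D, N) - 1` elements if `V` lies in a hypersurface of degree at
most `D`.  Any `binom(N + D, N) - 1` points lie on a hypersurface of degree at most `D`. -/
theorem result (m : ℕ) (d : Fin (m + 1) → ℕ)
    (hd : ∀ i : Fin m, 1 ≤ d i.castSucc ∧ d i.castSucc < d (Fin.last m))
    (hd2 : 2 ≤ d (Fin.last m)) (D : ℕ) (ε : ℝ) (hε : 0 < ε) :
    ∃ κ : ℝ, 0 < κ ∧ ∃ K : ℕ, ∀ B : ℕ, K ≤ B → (box d B).Finite ∧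
      ∀ (S : Finset (Fin (m + 1) → ℂ)) (A : ℝ), 1 ≤ A → (∀ α ∈ S, ∀ i, ‖α i‖ ≤ A) →
        (S.card : ℝ) ^ d (Fin.last m) * A ^ (d (Fin.last m) * (d (Fin.last m) + 1)) ≤ κ * B →
          (1 - ε) * ((box d B).ncard : ℝ) ≤
            (({Φ ∈ box d B | ∀ α ∈ S, ∀ V : Set (MvPolynomial (Fin (m + 1)) ℂ), Proper V →
              (returnSet Φ α V).Finite ∧ (InHypersurface D V →
                (returnSet Φ α V).ncard ≤ (m + 1 + D).choose (m + 1) - 1)}).ncard : ℝ) := by
  obtain ⟨κ, hκ, K, h⟩ := Pool.Agent.Helper52.SB.s_main (fun i => (hd i).1) (fun i => (hd i).2)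
    hd2 D ε hε
  refine ⟨κ, hκ, K, fun B hB => ?_⟩
  obtain ⟨hfin, h1⟩ := h B hB
  have hbox : box d B = Pool.Agent.Helper52.DV.zbox m d B := rfl
  rw [← hbox] at hfin h1
  refine ⟨hfin, fun S A hA hS hSA => ?_⟩
  refine (h1 S A hA hS hSA).trans
    (Nat.cast_le.2 (Set.ncard_le_ncard ?_ (hfin.subset fun Φ hΦ => hΦ.1)))
  rintro Φ ⟨hΦ, hC⟩
  refine ⟨hΦ, fun α hα V hV => ?_⟩
  have hmap : (Pool.Agent.Helper86.MQ.pm fun i =>
      MvPolynomial.map (Int.castRingHom ℂ) (Φ i)) = polyMap Φ := by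
    funext x i
    simp only [polyMap, Pool.Agent.Helper86.MQ.pm]
    rw [eval_map, aeval_def]
    rfl
  constructor
  · obtain ⟨F, hFV, hF0⟩ := hV
    have h2 := (hC α hα F hF0).1
    rw [hmap] at h2
    exact h2.subset fun n hn => hn F hFV
  · rintro ⟨G, hG0, hGD, hG⟩
    obtain ⟨h2, h3⟩ := hC α hα G hG0
    rw [hmap] at h2 h3
    have h4 := h3 hGD
    have hsub : returnSet Φ α V ⊆ {n | eval ((polyMap Φ)^[n] α) G = 0} := fun n hn => hG _ hn
    refine (Set.ncard_le_ncard hsub h2).trans ?_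
    rw [← h2.cast_ncard_eq] at h4
    have h5 : ({n | eval ((polyMap Φ)^[n] α) G = 0}).ncard < (m + 1 + D).choose (m + 1) := by
      exact_mod_cast h4
    omega

end Pool.Agent.Results.MP_295d38_ag.OptimalBound
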