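import Mathlib
import Pool.Agent.Helper26.RC.Main

/-!
# Exact dynamical Mordell-Lang for curves in affine space and maps regular at infinity

Let `K` be a number field and let `Φ` be a polynomial self-map of `A^N` over `K`, given by
polynomials of degree at most `d ≥ 2` whose homogeneous parts of degree `d` have no common
nontrivial zero (so `Φ` extends to an endomorphism of `P^N` of degree `d`). Let `α ∈ K^N`, and let
`V ⊆ A^N` be closed, defined over `K`, of dimension at most one. If no point at infinity of `V`
(defined over an extension of `K` of degree at most two) lies on a cycle of the map at infinity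
which contains a critical point, then the return set `{n | Φ^n (α) ∈ V}` is a finite union of
arithmetic progressions.

There is no assumption on the ramification of `Φ` in `A^N` and at the other points at infinity.

Sketch of the proof (`Pool/Agent/Helper26/RC/`). Let `U` be a nonprincipal ultrafilter containing
the return set, and for `l ≥ 0` let `C_l` be the Zariski closure of the sequence `Φ^(n-l) (α)` along
`U`: curves with `Φ (C_(l+1)) ⊆ C_l ⊆ .. ⊆ V`. The points are `S`-integral.
(1) Subspace theorem: a comparison of the Hilbert functions of `C_l` and of the growth rates of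
polynomials at the places where the orbit is unbounded shows that at one of these places, `v`, the
sequence tends to a point at infinity `q_l` with at most two conjugates over `K` (`Part A`, a
version of Siegel's theorem for the sequence).
(2) `Φ (q_(l+1)) = q_l`, all `q_l` are defined over an extension of degree at most two and have
bounded height, so the sequence `q_l` is periodic; all points of its cycle are not critical.
(3) The map at infinity can be inverted along the cycle: there are polynomial arcs `A_l` modulo
`s^T`, periodic in `l`, which the orbit must follow `v`-adically up to order `T` for `l ≥ l_0`.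
(4) Liouville: a polynomial of degree `≤ δ` over `K` which vanishes on the arc to order `T` vanishes
on `C_l`, where `T` is bounded in terms of `δ` only. For large `δ` there are enough of these
polynomials for all components of their zero set to have dimension at most one.
(5) So `C_l`, `l ≥ l_0`, is one of the finitely many components of the zero sets of finitely many
ideals; `C_l = C_l'` for some `l < l'`, and `V` contains the curve `C_0` with `Φ^m (C_0) ⊆ C_0`.
-/

namespace Pool.Agent.Results.MP_295d38_ag.RegularCurves

open MvPolynomial

variable {K : Type*} [Field K] {N : ℕ}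

/-- The polynomial self-map of affine space with the coordinates `Φ i`. -/
noncomputable def polyMap (Φ : Fin N → MvPolynomial (Fin N) K) (x : Fin N → K) : Fin N → K :=
  fun i => eval x (Φ i)

/-- The set of return times of the orbit of `α` to the zero set of the ideal `I`. -/
def returnSet (Φ : Fin N → MvPolynomial (Fin N) K) (α : Fin N → K)
    (I : Ideal (MvPolynomial (Fin N) K)) : Set ℕ :=
  {n | ∀ f ∈ I, eval ((polyMap Φ)^[n] α) f = 0}

/-- The zero set of `I` has dimension at most one: the coordinate rings of its irreducible closed
subsets have transcendence degree at most one over `K`. -/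
def DimLEOne (I : Ideal (MvPolynomial (Fin N) K)) : Prop :=
  ∀ P : Ideal (MvPolynomial (Fin N) K), P.IsPrime → I ≤ P →
    Algebra.trdeg K (MvPolynomial (Fin N) K ⧸ P) ≤ 1

/-- The homogeneous parts of degree `d` of the `Φ i`, as a self-map of `K̄^N`. It induces the map of
`Φ` on the hyperplane at infinity. -/
noncomputable def atInfinity (d : ℕ) (Φ : Fin N → MvPolynomial (Fin N) K)
    (z : Fin N → AlgebraicClosure K) : Fin N → AlgebraicClosure K :=
  fun i => aeval z (homogeneousComponent d (Φ i))

/-- `Φ` has degree at most `d` and extends to an endomorphism of degree `d` of projective space. -/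
def RegularAtInfinity (d : ℕ) (Φ : Fin N → MvPolynomial (Fin N) K) : Prop :=
  (∀ i, (Φ i).totalDegree ≤ d) ∧ ∀ z, atInfinity d Φ z = 0 → z = 0

/-- `z` represents a point at infinity of the closure of the zero set of `I` in projective space:
the forms of highest degree of all elements of `I` vanish at `z`. -/
def IsPointAtInfinity (I : Ideal (MvPolynomial (Fin N) K)) (z : Fin N → AlgebraicClosure K) : Prop :=
  z ≠ 0 ∧ ∀ f ∈ I, aeval z (homogeneousComponent f.totalDegree f) = 0

/-- All coordinates of `z` are in an extension of `K` of degree at most two. -/
def DegreeLETwo (z : Fin N → AlgebraicClosure K) : Prop :=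
  ∃ F : IntermediateField K (AlgebraicClosure K),
    FiniteDimensional K F ∧ Module.finrank K F ≤ 2 ∧ ∀ j, z j ∈ F

/-- The point of the hyperplane at infinity represented by `z` is periodic. -/
def PeriodicAtInfinity (d : ℕ) (Φ : Fin N → MvPolynomial (Fin N) K)
    (z : Fin N → AlgebraicClosure K) : Prop :=
  ∃ m, 0 < m ∧ ∃ c : AlgebraicClosure K, c ≠ 0 ∧ (atInfinity d Φ)^[m] z = c • z

/-- The point of the hyperplane at infinity represented by `z` is critical for the map at infinity:
the Jacobian determinant of the forms of degree `d` vanishes at `z`. -/
def CriticalAtInfinity (d : ℕ) (Φ : Fin N → MvPolynomial (Fin N) K)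
    (z : Fin N → AlgebraicClosure K) : Prop :=
  (Matrix.of fun i j => aeval z (pderiv j (homogeneousComponent d (Φ i)))).det = 0

/-- `Φ` regular at infinity, `V` of dimension at most one without points at infinity of degree at
most two on critical cycles: the return set is a finite union of arithmetic progressions. -/
theorem result [NumberField K] {d : ℕ} (hd : 2 ≤ d) (Φ : Fin N → MvPolynomial (Fin N) K)
    (hΦ : RegularAtInfinity d Φ) (α : Fin N → K) (I : Ideal (MvPolynomial (Fin N) K))
    (hI : DimLEOne I)
    (hcrit : ∀ z, IsPointAtInfinity I z → DegreeLETwo z → PeriodicAtInfinity d Φ z →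
      ∀ k, ¬ CriticalAtInfinity d Φ ((atInfinity d Φ)^[k] z)) :
    ∃ A : Finset (ℕ × ℕ), returnSet Φ α I = {n | ∃ p ∈ A, ∃ k : ℕ, n = p.1 + p.2 * k} := by
  obtain ⟨A, hA⟩ := Pool.Agent.Helper26.RC.main (Ω := AlgebraicClosure K) hd hΦ α hI
    (fun z h0 h1 h2 h3 k => hcrit z ⟨h0, h1⟩ h3 h2 k)
  refine ⟨A, ?_⟩
  have h : returnSet Φ α I = {n | ∀ f ∈ I, eval (Pool.Agent.Helper26.RC.orb Φ α n) f = 0} := rfl
  rw [h, hA]
  ext n
  simp only [Set.mem_iUnion, Set.mem_ofPred_eq, exists_prop]

end Pool.Agent.Results.MP_295d38_ag.RegularCurves
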