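import Mathlib
import Pool.Agent.Helper52.RP.Main

/-!
# Exact dynamical Mordell-Lang for curves and maps regular at infinity, in terms of multiplicities

Let `K` be a number field and let `Φ` be a polynomial self-map of `A^N` over `K`, given by
polynomials of degree at most `d ≥ 2` whose homogeneous parts of degree `d` have no common
nontrivial zero (so `Φ` extends to an endomorphism of `P^N` of degree `d`). Let `F` be the self-map
of `A^N` given by the forms of degree `d`; it induces the map of `Φ` on the hyperplane at infinity.
Let `α ∈ K^N`, and let `V ⊆ A^N` be closed, defined over `K`, of dimension at most one. Suppose that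
every point `z` at infinity of `V` which is defined over an extension of `K` of degree at most two
and which is periodic for the map at infinity has a period `k` for which the multiplicity of the
solution `Y = z` of the system `F^k (Y) = F^k (z)` is less than `d ^ k`. Then the return set
`{n | Φ^n (α) ∈ V}` is a finite union of arithmetic progressions.

The multiplicity is the local degree at `z` of the `k`-th iterate of the map of degree `d` on the
hyperplane at infinity `P^(N-1)`; it is `1` if there is no critical point on the cycle, and it can be
as large as `d ^ (k (N - 1))`. If `N = 2`, then the only points which violate the condition are the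
totally ramified periodic points. There is no condition on the ramification of `Φ` in `A^N`, at the
other points at infinity, and at points which are not periodic.

Sketch of the proof (`Pool/Agent/Helper26/RC/`, `Pool/Agent/Helper52/RP/`). Let `U` be a
nonprincipal ultrafilter containing the return set, and for `l ≥ 0` let `C_l` be the Zariski closure
of the sequence `Φ^(n-l) (α)` along `U`: curves with `Φ (C_(l+1)) ⊆ C_l ⊆ .. ⊆ V`.
(1) Subspace theorem (`RC`): at some place `v` the sequence tends to a point `q_l` at infinity with
at most two conjugates over `K`; the sequence `q_l` is periodic. Let `q = q_0`, let `k` be the period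
given by the hypothesis, `D = d^k`, `m < D` the multiplicity.
(2) Let `T` be the normalised homogenisation of `Φ^k` with the fixed point `P = (0, q)` of the cone.
By a filtration argument modulo high powers of the maximal ideal of `P`, the ideal `(T^j)^* (P)` has
colength at most `(D m)^j` at `P`.
(3) The orbit can be lifted to backward orbits `z_(i+1) ↦ z_i` of `T` which tend to `P`, and
`|z_i - P| ≤ C |s_i|^a`, `s_i` the coordinate of `z_i` at infinity, with the same exponent `a > 0`
for all `i`, because elements of the maximal ideal have their `m`-th power in `(T^* (P), s)` and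
`m ≤ D`.
(4) So a polynomial of degree `δ` over `K` whose homogenisation is in `(T^j)^* (P)` modulo a high
power has size `|s|^(a D^j - δ)` at the points of `C_(k (i + j))`, for every `i`. By the product
formula it vanishes on `C_(k (i + j))` if `a D^j > M δ`, with a constant `M`. These are at most
`2 (D m)^j` linear conditions over `K`, fewer than `δ ^ 2 / 2` for large `j` because `m < D`; so
their zero set, which does not depend on `i`, has dimension at most one.
(5) All curves `C_(k (i + j))` are components of it. Two of them are equal, and `V` contains the
curve `C_0` with `Φ^m (C_0) ⊆ C_0`.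
-/

namespace Pool.Agent.Results.MP_295d38_ag.RegularMultiplicity

open MvPolynomial

universe u

variable {K : Type u} [Field K] {N : ℕ}

/-- The polynomial self-map of affine space with the coordinates `Φ i`. -/
noncomputable def polyMap (Φ : Fin N → MvPolynomial (Fin N) K) (x : Fin N → K) : Fin N → K :=
  fun i => eval x (Φ i)

/-- The set of return times of the orbit of `α` to the zero set of the ideal `I`. -/
def returnSet (Φ : Fin N → MvPolynomial (Fin N) K) (α : Fin N → K)
    (I : Ideal (MvPolynomial (Fin N) K)) : Set ℕ :=
  {n | ∀ f ∈ I, eval ((polyMap Φ)^[n] α) f = 0}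

/-- The zero set of `I` has dimension at most one: the coordinate rings of its irreducible closed
subsets have transcendence degree at most one over `K`. -/
def DimLEOne (I : Ideal (MvPolynomial (Fin N) K)) : Prop :=
  ∀ P : Ideal (MvPolynomial (Fin N) K), P.IsPrime → I ≤ P →
    Algebra.trdeg K (MvPolynomial (Fin N) K ⧸ P) ≤ 1

/-- `Φ` has degree at most `d`, and the homogeneous parts of degree `d` of the `Φ i` have no common
nontrivial zero: `Φ` extends to an endomorphism of degree `d` of projective space. -/
def RegularAtInfinity (d : ℕ) (Φ : Fin N → MvPolynomial (Fin N) K) : Prop :=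
  (∀ i, (Φ i).totalDegree ≤ d) ∧
    ∀ z : Fin N → AlgebraicClosure K, (∀ i, aeval z (homogeneousComponent d (Φ i)) = 0) → z = 0

section multiplicity

variable {F : Type*} [Field F]

/-- The maximal ideal of the point `z` of `A^N`. -/
noncomputable def pointIdeal (z : Fin N → F) : Ideal (MvPolynomial (Fin N) F) :=
  RingHom.ker (eval z)

instance (z : Fin N → F) : (pointIdeal z).IsPrime := RingHom.ker_isPrime _

/-- The multiplicity of the solution `Y = z` of the system of equations `G i (Y) = G i (z)`: the
dimension over `F` of the quotient of the local ring of `A^N` at `z` by the ideal generated by the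
`G i (Y) - G i (z)`. -/
noncomputable def localMult (G : Fin N → MvPolynomial (Fin N) F) (z : Fin N → F) : Cardinal :=
  Module.rank F (Localization.AtPrime (pointIdeal z) ⧸
    (Ideal.span (Set.range fun i => G i - C (eval z (G i)))).map
      (algebraMap (MvPolynomial (Fin N) F) (Localization.AtPrime (pointIdeal z))))

end multiplicity

section extension

variable (L : Type u) [Field L] [Algebra K L]

/-- The homogeneous part of degree `d` of `Φ i`, as a polynomial over the extension field `L`. -/
noncomputable def topForm (d : ℕ) (Φ : Fin N → MvPolynomial (Fin N) K) (i : Fin N) :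
    MvPolynomial (Fin N) L :=
  homogeneousComponent d (MvPolynomial.map (algebraMap K L) (Φ i))

/-- The coordinate `i` of the `k`-th iterate of the self-map of `A^N` given by the forms of degree
`d`: a form of degree `d ^ k`. -/
noncomputable def topIter (d : ℕ) (Φ : Fin N → MvPolynomial (Fin N) K) (k : ℕ) (i : Fin N) :
    MvPolynomial (Fin N) L :=
  (bind₁ (topForm L d Φ))^[k] (X i)

variable {L}

/-- `z` represents a point at infinity of the closure of the zero set of `I` in projective space:
the forms of highest degree of all elements of `I` vanish at `z`. -/
def IsPointAtInfinity (I : Ideal (MvPolynomial (Fin N) K)) (z : Fin N → L) : Prop :=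
  z ≠ 0 ∧ ∀ f ∈ I, aeval z (homogeneousComponent f.totalDegree f) = 0

/-- `k > 0` is a period of the point of the hyperplane at infinity represented by `z`. -/
def IsPeriod (d : ℕ) (Φ : Fin N → MvPolynomial (Fin N) K) (k : ℕ) (z : Fin N → L) : Prop :=
  0 < k ∧ ∃ c : L, c ≠ 0 ∧ ∀ i, eval z (topIter L d Φ k i) = c * z i

end extension

/-- `Φ` regular at infinity, `V` of dimension at most one whose periodic points at infinity of degree
at most two have a period `k` with multiplicity less than `d ^ k`: the return set is a finite union
of arithmetic progressions. -/
theorem result [NumberField K] {d : ℕ} (hd : 2 ≤ d) (Φ : Fin N → MvPolynomial (Fin N) K)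
    (hΦ : RegularAtInfinity d Φ) (α : Fin N → K) (I : Ideal (MvPolynomial (Fin N) K))
    (hI : DimLEOne I)
    (hmult : ∀ (L : Type u) [Field L] [Algebra K L], FiniteDimensional K L →
      Module.finrank K L ≤ 2 → ∀ z : Fin N → L, IsPointAtInfinity I z → (∃ k, IsPeriod d Φ k z) →
        ∃ k, IsPeriod d Φ k z ∧ localMult (topIter L d Φ k) z < (d ^ k : ℕ)) :
    ∃ A : Finset (ℕ × ℕ), returnSet Φ α I = {n | ∃ p ∈ A, ∃ k : ℕ, n = p.1 + p.2 * k} := by
  have hreg : Pool.Agent.Helper26.RC.Reg (AlgebraicClosure K) d Φ :=
    ⟨hΦ.1, fun z hz => hΦ.2 z fun i => congrFun hz i⟩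
  obtain ⟨A, hA⟩ := Pool.Agent.Helper52.RP.main (Ω := AlgebraicClosure K) hd hreg α hI (by
    intro L hL1 hL2 z hz hinf hper
    obtain ⟨k0, hk0, h0⟩ := hper
    obtain ⟨k, ⟨hk, hk'⟩, hk2⟩ := hmult L hL1 hL2 z ⟨hz, hinf⟩ ⟨k0, hk0, h0⟩
    exact ⟨k, hk, hk', hk2⟩)
  refine ⟨A, ?_⟩
  have h : returnSet Φ α I = {n | ∀ f ∈ I, eval (Pool.Agent.Helper26.RC.orb Φ α n) f = 0} := rfl
  rw [h, hA]
  ext n
  simp only [Set.mem_iUnion, Set.mem_ofPred_eq, exists_prop]

end Pool.Agent.Results.MP_295d38_ag.RegularMultiplicity
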